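import Pool.Agent.H32.RQ.Targets

/-!
# A count of pairs
-/

set_option autoImplicit false

open Finset Pool.Agent.H32.RQ

namespace Pool.Agent.H39.RQ

theorem pf_PA1 : T_PA1 := by
  intro a b D ha hg
  set g : ℕ := Int.gcd a b with hgd
  have hg0 : 0 < g := Int.gcd_pos_of_ne_zero_left b ha
  obtain ⟨a', ha'⟩ : (g : ℤ) ∣ a := Int.gcd_dvd_left a b
  obtain ⟨b', hb'⟩ : (g : ℤ) ∣ b := Int.gcd_dvd_right a b
  have hgZ : (0 : ℤ) < g := by exact_mod_cast hg0
  have hcop : Int.gcd a' b' = 1 := by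
    have h1 : Int.gcd ((g : ℤ) * a') ((g : ℤ) * b') = g := by rw [← ha', ← hb']
    rw [Int.gcd_mul_left, Int.natAbs_natCast] at h1
    exact Nat.eq_of_mul_eq_mul_left hg0 (by rw [h1, mul_one])
  have ha0 : a' ≠ 0 := by
    rintro rfl
    rw [mul_zero] at ha'
    exact ha ha'
  have habs : (0 : ℤ) < |a'| := abs_pos.2 ha0
  have haa : |a| = g * |a'| := by rw [ha', abs_mul, abs_of_pos hgZ]
  set q : ℕ := D / g with hq
  have hq1 : 1 ≤ q := (Nat.one_le_div_iff hg0).2 hg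
  have hqD : q * g ≤ D := Nat.div_mul_le_self D g
  set S : Set (ℤ × ℤ) := {q : ℤ × ℤ | |q.1| ≤ |a| ∧ |a * q.2 - b * q.1| ≤ D} with hS
  let φ : ℤ × ℤ → ℤ × ℤ := fun p => (a' * p.2 - b' * p.1, (p.1 + |a|) / |a'|)
  let T : Finset (ℤ × ℤ) := Icc (-(q : ℤ)) q ×ˢ Icc (0 : ℤ) (2 * g)
  have hmap : Set.MapsTo φ S (T : Set (ℤ × ℤ)) := by
    rintro ⟨u, v⟩ ⟨h1, h2⟩
    simp only at h1 h2
    have h3 : a * v - b * u = g * (a' * v - b' * u) := by
      rw [ha', hb']; ring
    rw [h3, abs_mul, abs_of_pos hgZ] at h2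
    have h4 : |a' * v - b' * u| ≤ q := by
      have h5 : (a' * v - b' * u).natAbs ≤ D / g := by
        rw [Nat.le_div_iff_mul_le hg0]
        have h6 : ((((a' * v - b' * u).natAbs * g : ℕ)) : ℤ) ≤ (D : ℤ) := by
          push_cast
          rw [mul_comm]
          exact h2
        exact_mod_cast h6
      rw [Int.abs_eq_natAbs]
      exact_mod_cast h5
    obtain ⟨h5, h6⟩ := abs_le.1 h4
    obtain ⟨h7, h8⟩ := abs_le.1 h1
    have h9 : 0 ≤ (u + |a|) / |a'| := Int.ediv_nonneg (by linarith) habs.le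
    have h10 : (u + |a|) / |a'| ≤ 2 * g := by
      have h11 : u + |a| ≤ (2 * g) * |a'| := by
        rw [mul_assoc, ← haa]
        linarith
      have h12 := Int.ediv_le_ediv habs h11
      rwa [Int.mul_ediv_cancel _ habs.ne'] at h12
    simp only [T, φ, Finset.coe_product, Finset.coe_Icc, Set.mem_prod, Set.mem_Icc]
    exact ⟨⟨h5, h6⟩, h9, h10⟩
  have hinj : Set.InjOn φ S := by
    rintro ⟨u, v⟩ - ⟨u', v'⟩ - h
    simp only [φ, Prod.mk.injEq] at h
    obtain ⟨h1, h2⟩ := h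
    have h3 : a' ∣ b' * (u - u') := ⟨v - v', by linear_combination -h1⟩
    have h4 : a' ∣ u - u' := (Int.isCoprime_iff_gcd_eq_one.2 hcop).dvd_of_dvd_mul_left h3
    have h5 : (u + |a|) % |a'| = (u' + |a|) % |a'| := by
      apply Int.ModEq.symm
      rw [Int.modEq_iff_dvd, abs_dvd]
      have : u + |a| - (u' + |a|) = u - u' := by ring
      rw [this]
      exact h4
    have h6 := Int.emod_add_mul_ediv (u + |a|) |a'|
    have h7 := Int.emod_add_mul_ediv (u' + |a|) |a'|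
    rw [h5, h2] at h6
    have h8 : u = u' := by linarith
    subst h8
    have h9 : a' * v = a' * v' := by linarith
    have h10 := mul_left_cancel₀ ha0 h9
    rw [h10]
  have hfin : S.Finite := Set.Finite.of_injOn hmap hinj T.finite_toSet
  refine ⟨hfin, ?_⟩
  have hc : S.ncard ≤ (T : Set (ℤ × ℤ)).ncard :=
    Set.ncard_le_ncard_of_injOn φ hmap hinj T.finite_toSet
  rw [Set.ncard_coe_finset] at hc
  refine hc.trans ?_
  have hT : T.card = (2 * q + 1) * (2 * g + 1) := by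
    simp only [T, Finset.card_product, Int.card_Icc]
    congr 1
    omega
  rw [hT]
  have h1 : (2 * q + 1) * (2 * g + 1) ≤ 9 * (q * g) := by
    obtain ⟨x, hx⟩ := Nat.exists_eq_add_of_le hq1
    obtain ⟨y, hy⟩ := Nat.exists_eq_add_of_le (show 1 ≤ g from hg0)
    rw [hx, hy]
    nlinarith [Nat.zero_le x, Nat.zero_le y, Nat.zero_le (x * y)]
  omega

end Pool.Agent.H39.RQ
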